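import Pool.Agent.Lib.MP_defcf3_al.FR.NDefs

/-! N-KT of project FR, THEOREM N: the Kummer character of a root of unity level over the tower (helper67). -/

set_option autoImplicit false

namespace Pool.Agent.Lib.MP_defcf3_al.FR.H67

universe u

open BR7 BRP BRP.H50

variable {ℓ : ℕ} [Fact ℓ.Prime] [Fact (Odd ℓ)]

theorem kt : StKT.{u} ℓ := by
  classical
  intro F Ω _ _ _ _ _ ζ hζ η hη l hl n
  obtain ⟨hη0, hηp, hηs⟩ := hη
  have hD := H4.disc F Ω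
  have hdl := H4.dlog
  have hex : ∀ (g : Ω ≃ₐ[F] Ω), ∃ k : ℕ, g • η n = η n ^ k := by
    intro g
    have h1 : (g • η n) ^ ℓ ^ (n + 1) = 1 := by
      rw [← smul_pow', (hηp n).pow_eq_one, smul_one]
    exact ⟨_, ((hdl Ω (ℓ ^ (n + 1)) (η n) (hηp n)).1 _ h1).symm⟩
  choose c hc using hex
  -- the root
  have hne : NeZero ((ℓ : ℕ) : Ω) := (IsPrimitiveRoot.coe_units_iff.2 hζ).neZero'
  obtain ⟨t, ht⟩ : ∃ t : Ωˣ, t ^ ℓ ^ (n + 1) = l := by
    have hne' : NeZero ((ℓ ^ (n + 1) : ℕ) : Ω) := by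
      constructor
      push_cast
      exact pow_ne_zero _ (by exact_mod_cast hne.out)
    obtain ⟨z, hz⟩ := IsSepClosed.exists_pow_nat_eq (l : Ω) (ℓ ^ (n + 1))
    have hz0 : z ≠ 0 := by
      rintro rfl
      rw [zero_pow (pow_ne_zero _ (Fact.out : Nat.Prime ℓ).ne_zero)] at hz
      exact l.ne_zero hz.symm
    refine ⟨Units.mk0 z hz0, Units.ext ?_⟩
    rw [Units.val_pow_eq_pow_val, Units.val_mk0, hz]
  have hηζ : ∀ n, η n ^ ℓ ^ n = ζ := by
    intro n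
    induction n with
    | zero => rw [hη0, pow_zero, pow_one]
    | succ n ih => rw [pow_succ', pow_mul, hηs n, ih]
  have hNζ : ∀ g : Ω ≃ₐ[F] Ω, g • η n = η n → g • ζ = ζ := by
    intro g hg
    rw [← hηζ n, smul_pow', hg]
  have hlN : ∀ g : Ω ≃ₐ[F] Ω, g • η n = η n → g • l = l := fun g hg => hl g (hNζ g hg)
  set ψ : (Ω ≃ₐ[F] Ω) → ZMod (ℓ ^ (n + 1)) := fun g =>
    if g • η n = η n then dlog (ℓ ^ (n + 1)) (η n) ((g • t) * t⁻¹) else 0 with hψdef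
  have hψ : ∀ g, g • η n = η n → g • t = η n ^ (ψ g).val * t := by
    intro g hg
    have h1 : ((g • t) * t⁻¹) ^ ℓ ^ (n + 1) = 1 := by
      rw [mul_pow, inv_pow, ← smul_pow', ht, hlN g hg, mul_inv_cancel]
    have h2 := (hdl Ω (ℓ ^ (n + 1)) (η n) (hηp n)).1 _ h1
    have h3 : ψ g = dlog (ℓ ^ (n + 1)) (η n) ((g • t) * t⁻¹) := if_pos hg
    rw [h3, h2, inv_mul_cancel_right]
  have huniq : ∀ (i j : ℕ), η n ^ i = η n ^ j → (i : ZMod (ℓ ^ (n + 1))) = j := by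
    intro i j h
    rw [pow_eq_pow_iff_modEq, ← (hηp n).eq_orderOf] at h
    exact (ZMod.natCast_eq_natCast_iff _ _ _).2 h
  have hψu : ∀ g (k : ℕ), g • η n = η n → g • t = η n ^ k * t → ψ g = k := by
    intro g k hg h
    rw [hψ g hg] at h
    have h1 := huniq _ _ (mul_right_cancel h)
    rwa [ZMod.natCast_val, ZMod.cast_id] at h1
  have hlc : ∀ a : Ωˣ, IsLocallyConstant (fun g : Ω ≃ₐ[F] Ω => g • a) := by
    intro a
    rw [IsLocallyConstant.iff_exists_open]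
    intro g0
    refine ⟨(fun g => g0⁻¹ * g) ⁻¹' {g : Ω ≃ₐ[F] Ω | g • a = a}, ?_, ?_, ?_⟩
    · exact (hD a).preimage (continuous_const.mul continuous_id)
    · change (g0⁻¹ * g0) • a = a
      rw [inv_mul_cancel, one_smul]
    · intro g hg
      have h1 : (g0⁻¹ * g) • a = a := hg
      rw [mul_smul, inv_smul_eq_iff] at h1
      exact h1
  refine ⟨ψ, ⟨?_, ?_, ?_, ?_⟩, ?_⟩
  · constructor
    intro h hh g
    have h1 : h • η n = η n := hh
    change (g * h * g⁻¹) • η n = η n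
    rw [mul_smul, mul_smul, hc g⁻¹, smul_pow', h1, ← hc g⁻¹, smul_inv_smul]
  · exact hD (η n)
  · intro g hg h hh
    have hg' : g • η n = η n := hg
    have hh' : h • η n = η n := hh
    have h1 : (g * h) • η n = η n := by rw [mul_smul, hh', hg']
    rw [hψu (g * h) ((ψ g).val + (ψ h).val) h1, Nat.cast_add, ZMod.natCast_val, ZMod.natCast_val,
      ZMod.cast_id, ZMod.cast_id]
    rw [mul_smul, hψ h hh', smul_mul', smul_pow', hg', hψ g hg', pow_add (η n)]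
    exact BRP.H62.aux1 _ _ _
  · have h1 : IsLocallyConstant (fun g : Ω ≃ₐ[F] Ω => (g • η n, g • t)) := (hlc _).prodMk (hlc _)
    exact h1.comp fun p : Ωˣ × Ωˣ => if p.1 = η n then dlog (ℓ ^ (n + 1)) (η n) (p.2 * t⁻¹) else 0
  · intro g hz hg
    -- the ℓ-th root
    have h1 : (t ^ ℓ ^ n) ^ ℓ = l := by rw [← pow_mul, ← pow_succ, ht]
    have h2 := (BRP.H50.Full.kum (ℓ := ℓ) F Ω ζ hζ).2.1 l (t ^ ℓ ^ n) hl h1 ⟨g, hz⟩
    have h3 : g • (t ^ ℓ ^ n) = ζ ^ (ψ g).val * t ^ ℓ ^ n := by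
      rw [smul_pow', hψ g hg, mul_pow, ← pow_mul, mul_comm (ψ g).val, pow_mul, hηζ n]
    have h4 : ζ ^ (ψ g).val = ζ ^ (BRP.kum ℓ F ζ l ⟨g, hz⟩).val := by
      have h5 : (⟨g, hz⟩ : HZ F ζ) • (t ^ ℓ ^ n) = g • (t ^ ℓ ^ n) := rfl
      rw [h5, h3] at h2
      exact mul_right_cancel h2
    rw [pow_eq_pow_iff_modEq, ← hζ.eq_orderOf] at h4
    have h6 := (ZMod.natCast_eq_natCast_iff _ _ ℓ).2 h4
    rw [ZMod.natCast_val (BRP.kum ℓ F ζ l ⟨g, hz⟩), ZMod.cast_id] at h6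
    rw [← h6, ZMod.natCast_val, ZMod.castHom_apply]

end Pool.Agent.Lib.MP_defcf3_al.FR.H67
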